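import Pool.Agent.Helper15.EP.St

/-!
Project EP (MP_16cbc0_nt), module DUB (helper32): bound for the number of tuples with divisible product.
-/

set_option autoImplicit false

namespace Pool.Agent.Helper32.EP

open Polynomial Pool.Agent.Helper15.FC Pool.Agent.Helper15.EP

open scoped Classical in
theorem card_dvd_le (F : Type) [Field F] [Fintype F] (d : F[X]) (hd : d.Monic) (i : ℕ) :
    (((Mn F i).filter (fun r => d ∣ r)).card : ℝ) * qr F ^ d.natDegree ≤ qr F ^ i := by
  have hq0 : (0 : ℝ) ≤ qr F := Nat.cast_nonneg _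
  by_cases hdi : d.natDegree ≤ i
  · have hsub : (Mn F i).filter (fun r => d ∣ r) ⊆ (Mn F (i - d.natDegree)).image (fun s => d * s) := by
      intro r hr
      rw [Finset.mem_filter, mem_Mn] at hr
      obtain ⟨⟨hr1, hr2⟩, s, hs⟩ := hr
      have hs1 : s.Monic := by
        rw [hs] at hr1
        exact hd.of_mul_monic_left hr1
      have hs2 : d.natDegree + s.natDegree = i := by
        rw [← hr2, hs, hd.natDegree_mul hs1]
      exact Finset.mem_image.2 ⟨s, mem_Mn.2 ⟨hs1, by omega⟩, hs.symm⟩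
    have hcard : ((Mn F i).filter (fun r => d ∣ r)).card ≤ Fintype.card F ^ (i - d.natDegree) := by
      rw [← card_Mn]
      exact (Finset.card_le_card hsub).trans Finset.card_image_le
    have hcard' : (((Mn F i).filter (fun r => d ∣ r)).card : ℝ) ≤ qr F ^ (i - d.natDegree) := by
      exact_mod_cast hcard
    calc (((Mn F i).filter (fun r => d ∣ r)).card : ℝ) * qr F ^ d.natDegree
        ≤ qr F ^ (i - d.natDegree) * qr F ^ d.natDegree :=
          mul_le_mul_of_nonneg_right hcard' (pow_nonneg hq0 _)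
      _ = qr F ^ i := by rw [← pow_add, Nat.sub_add_cancel hdi]
  · have h0 : (Mn F i).filter (fun r => d ∣ r) = ∅ := by
      rw [Finset.filter_eq_empty_iff]
      intro r hr hdr
      rw [mem_Mn] at hr
      have := Polynomial.natDegree_le_of_dvd hdr hr.1.ne_zero
      omega
    rw [h0]
    simp only [Finset.card_empty, Nat.cast_zero, zero_mul]
    exact pow_nonneg hq0 _

theorem tau_mono (F : Type) [Field F] [Fintype F] {c e : F[X]} (he : e.Monic) (hc : c.Monic)
    (hce : c ∣ e) : tau c ≤ tau e := by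
  unfold tau
  have hsub : Dv c ⊆ Dv e := by
    intro d hd
    rw [mem_Dv hc.ne_zero] at hd
    rw [mem_Dv he.ne_zero]
    exact ⟨hd.1, hd.2.trans hce⟩
  exact_mod_cast Finset.card_le_card hsub

/-- splitting a divisor of a product -/
theorem split (F : Type) [Field F] [Fintype F] {e a B : F[X]} (he : e.Monic) (h : e ∣ a * B) :
    ∃ d ∈ Dv e, d ∣ a ∧ e / d ∣ B := by
  obtain ⟨a₁, a₂, h1, h2, h3⟩ := exists_dvd_and_dvd_of_dvd_mul h
  have h10 : a₁ ≠ 0 := by
    rintro rfl
    rw [zero_mul] at h3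
    exact he.ne_zero h3
  have hl : a₁.leadingCoeff ≠ 0 := Polynomial.leadingCoeff_ne_zero.2 h10
  set d : F[X] := a₁ * C (a₁.leadingCoeff)⁻¹ with hd
  have hdm : d.Monic := Polynomial.monic_mul_leadingCoeff_inv h10
  have hC : (C (a₁.leadingCoeff)⁻¹ : F[X]) * C a₁.leadingCoeff = 1 := by
    rw [← C_mul, inv_mul_cancel₀ hl, C_1]
  have hed : e = d * (C a₁.leadingCoeff * a₂) := by
    rw [h3, hd]
    linear_combination (-(a₁ * a₂)) * hC
  have hdd : e / d = C a₁.leadingCoeff * a₂ := by
    rw [hed]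
    exact mul_div_cancel_left₀ _ hdm.ne_zero
  have ha : d ∣ a := by
    refine dvd_trans ?_ h1
    exact ⟨C a₁.leadingCoeff, by rw [hd, mul_assoc, hC, mul_one]⟩
  refine ⟨d, (mem_Dv he.ne_zero).2 ⟨hdm, ⟨_, hed⟩⟩, ha, ?_⟩
  rw [hdd]
  refine dvd_trans ?_ h2
  exact ⟨C (a₁.leadingCoeff)⁻¹, by
    rw [mul_comm (C a₁.leadingCoeff) a₂, mul_assoc, mul_comm (C a₁.leadingCoeff), hC, mul_one]⟩

open scoped Classical in
theorem Dc_le (F : Type) [Field F] [Fintype F] (k : ℕ) (x : Fin (k + 1) → ℕ) (e : F[X])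
    (he : e.Monic) :
    Dc e x ≤ ∑ d ∈ Dv e, ((Mn F (x 0)).filter (fun r => d ∣ r)).card *
      Dc (e / d) (fun i => x i.succ) := by
  have hsub : (Tup F x).filter (fun a => e ∣ ∏ i, a i) ⊆ (Dv e).biUnion (fun d =>
      (((Mn F (x 0)).filter (fun r => d ∣ r)) ×ˢ
        ((Tup F (fun i => x i.succ)).filter (fun a => e / d ∣ ∏ i, a i))).image
          (fun p => (Fin.cons p.1 p.2 : Fin (k + 1) → F[X]))) := by
    intro a ha
    rw [Finset.mem_filter] at ha
    obtain ⟨h1, h2⟩ := ha
    unfold Tup at h1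
    rw [Fintype.mem_piFinset] at h1
    rw [Fin.prod_univ_succ] at h2
    obtain ⟨d, hd, hda, hdB⟩ := split F he h2
    rw [Finset.mem_biUnion]
    refine ⟨d, hd, ?_⟩
    rw [Finset.mem_image]
    refine ⟨(a 0, fun i => a i.succ), ?_, ?_⟩
    · rw [Finset.mem_product, Finset.mem_filter, Finset.mem_filter]
      refine ⟨⟨h1 0, hda⟩, ?_, hdB⟩
      unfold Tup
      rw [Fintype.mem_piFinset]
      exact fun i => h1 i.succ
    · exact Fin.cons_self_tail a
  unfold Dc
  refine (Finset.card_le_card hsub).trans (Finset.card_biUnion_le.trans ?_)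
  refine Finset.sum_le_sum fun d _ => Finset.card_image_le.trans ?_
  rw [Finset.card_product]

theorem hDUB : StDUB := by
  intro F _ _ k
  have hq0 : (0 : ℝ) ≤ qr F := Nat.cast_nonneg _
  induction k with
  | zero =>
    intro x e he
    classical
    rw [pow_zero, mul_one]
    by_cases h1 : e = 1
    · have hle : Dc e x ≤ 1 := by
        unfold Dc
        refine (Finset.card_filter_le _ _).trans ?_
        unfold Tup
        simp
      have h2 : (Dc e x : ℝ) ≤ 1 := by exact_mod_cast hle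
      simp [h1] at h2 ⊢
      exact h2
    · have h0 : Dc e x = 0 := by
        unfold Dc
        rw [Finset.card_eq_zero, Finset.filter_eq_empty_iff]
        intro a _ ha
        rw [Fin.prod_univ_zero] at ha
        exact h1 (he.eq_one_of_isUnit (isUnit_of_dvd_one ha))
      rw [h0]
      simp
  | succ k ih =>
    intro x e he
    classical
    have h1 : (Dc e x : ℝ) ≤ ∑ d ∈ Dv e, (((Mn F (x 0)).filter (fun r => d ∣ r)).card : ℝ) *
        (Dc (e / d) (fun i => x i.succ) : ℝ) := by
      exact_mod_cast Dc_le F k x e he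
    have h2 : ∀ d ∈ Dv e, (((Mn F (x 0)).filter (fun r => d ∣ r)).card : ℝ) *
        (Dc (e / d) (fun i => x i.succ) : ℝ) * qr F ^ e.natDegree ≤
          qr F ^ (∑ i, x i) * tau e ^ k := by
      intro d hd
      rw [mem_Dv he.ne_zero] at hd
      obtain ⟨hdm, c, hc⟩ := hd
      have hcm : c.Monic := by
        rw [hc] at he
        exact hdm.of_mul_monic_left he
      have hdiv : e / d = c := by
        rw [hc]
        exact mul_div_cancel_left₀ _ hdm.ne_zero
      have hdeg : e.natDegree = d.natDegree + c.natDegree := by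
        rw [hc, hdm.natDegree_mul hcm]
      rw [hdiv, hdeg, pow_add, Fin.sum_univ_succ, pow_add]
      have a1 := card_dvd_le F d hdm (x 0)
      have a2 := ih (fun i => x i.succ) c hcm
      have a3 : tau c ^ k ≤ tau e ^ k := by
        refine pow_le_pow_left₀ ?_ (tau_mono F he hcm ⟨d, by rw [hc, mul_comm]⟩) k
        unfold tau
        exact Nat.cast_nonneg _
      have a4 : (Dc c (fun i => x i.succ) : ℝ) * qr F ^ c.natDegree ≤
          qr F ^ (∑ i : Fin k, x i.succ) * tau e ^ k :=
        a2.trans (mul_le_mul_of_nonneg_left a3 (pow_nonneg hq0 _))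
      calc (((Mn F (x 0)).filter (fun r => d ∣ r)).card : ℝ) * (Dc c (fun i => x i.succ) : ℝ) *
            (qr F ^ d.natDegree * qr F ^ c.natDegree)
          = ((((Mn F (x 0)).filter (fun r => d ∣ r)).card : ℝ) * qr F ^ d.natDegree) *
            ((Dc c (fun i => x i.succ) : ℝ) * qr F ^ c.natDegree) := by ring
        _ ≤ qr F ^ x 0 * (qr F ^ (∑ i : Fin k, x i.succ) * tau e ^ k) :=
            mul_le_mul a1 a4 (mul_nonneg (Nat.cast_nonneg _) (pow_nonneg hq0 _)) (pow_nonneg hq0 _)
        _ = qr F ^ x 0 * qr F ^ (∑ i : Fin k, x i.succ) * tau e ^ k := by ring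
    calc (Dc e x : ℝ) * qr F ^ e.natDegree
        ≤ (∑ d ∈ Dv e, (((Mn F (x 0)).filter (fun r => d ∣ r)).card : ℝ) *
          (Dc (e / d) (fun i => x i.succ) : ℝ)) * qr F ^ e.natDegree :=
          mul_le_mul_of_nonneg_right h1 (pow_nonneg hq0 _)
      _ = ∑ d ∈ Dv e, (((Mn F (x 0)).filter (fun r => d ∣ r)).card : ℝ) *
          (Dc (e / d) (fun i => x i.succ) : ℝ) * qr F ^ e.natDegree := by rw [Finset.sum_mul]
      _ ≤ ∑ _d ∈ Dv e, qr F ^ (∑ i, x i) * tau e ^ k := Finset.sum_le_sum h2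
      _ = qr F ^ (∑ i, x i) * tau e ^ (k + 1) := by
          rw [Finset.sum_const, nsmul_eq_mul, pow_succ]
          unfold tau
          ring

end Pool.Agent.Helper32.EP
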